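import Pool.Agent.Lib.MP_a1e562_co.IH.Short

/-!
# MP_a1e562_co: translation planes of characteristic three with an involutory homology

The definitions `CharThree`, `IsDesarguesian` are in `Pool.Agent.Lib.MP_a1e562_co.SF.Short`,
`IsInvolutoryTranslationPlane` is in `Pool.Agent.Lib.MP_a1e562_co.IH.Short`.
-/

set_option autoImplicit false

namespace Pool.Agent.Results.MP_a1e562_co.InvolutoryHomology

open Configuration Pool.Agent.TP3

/-- Every finite projective plane in which each quadrangle generates a subplane with 13 points,
which is a translation plane with an involutory homology with affine axis (a spread set `S` with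
`-S = S`), and whose order is not a fourth power, is isomorphic to the plane over a field. -/
theorem result (P L : Type) [Membership P L] [ProjectivePlane P L] [Finite P]
    (hchar : CharThree P L) (hinv : IsInvolutoryTranslationPlane P L)
    (hord : ¬ ∃ k : ℕ, ProjectivePlane.order P L = k ^ 4) : IsDesarguesian P L :=
  involutory_short P L hchar hinv hord

end Pool.Agent.Results.MP_a1e562_co.InvolutoryHomology
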