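import Pool.Agent.Lib.MP_a1e562_co.OT.All

/-!
# MP_a1e562_co: planes of characteristic three whose order is 3 mod 4

The definitions `CharThree`, `IsDesarguesian` are in `Pool.Agent.Lib.MP_a1e562_co.SF.Short`.
-/

set_option autoImplicit false

namespace Pool.Agent.Results.MP_a1e562_co.OrderThreeModFour

open Configuration Pool.Agent.TP3

/-- Every finite projective plane in which each quadrangle generates a subplane with 13 points, and
whose order is congruent to 3 modulo 4, is isomorphic to the plane over a field. -/
theorem result (P L : Type) [Membership P L] [ProjectivePlane P L] [Finite P]
    (hchar : CharThree P L) (hord : ProjectivePlane.order P L % 4 = 3) : IsDesarguesian P L :=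
  order_three_mod_four P L hchar hord

end Pool.Agent.Results.MP_a1e562_co.OrderThreeModFour
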