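import Pool.Agent.Lib.MP_a1e562_co.SF.Short

/-!
# MP_a1e562_co: finite semifield planes of characteristic three are desarguesian

The definitions `CharThree`, `IsSemifieldPlane`, `IsDesarguesian` are in
`Pool.Agent.Lib.MP_a1e562_co.SF.Short`.
-/

set_option autoImplicit false

namespace Pool.Agent.Results.MP_a1e562_co.SemifieldPlanes

open Configuration Pool.Agent.TP3

/-- Every finite projective plane in which each quadrangle generates a subplane with 13 points and
which is a semifield plane (coordinatised by a presemifield) is isomorphic to the plane over a
field. -/
theorem result (P L : Type) [Membership P L] [ProjectivePlane P L] [Finite P]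
    (hchar : CharThree P L) (hsemi : IsSemifieldPlane P L) : IsDesarguesian P L :=
  semifield_short P L hchar hsemi

end Pool.Agent.Results.MP_a1e562_co.SemifieldPlanes
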