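import Pool.Agent.Lib.MP_a1e562_co.All

/-!
# MP_a1e562_co: translation planes of characteristic three and dimension two are desarguesian

The definitions `Char3`, `TranslationDimTwo`, `Desarguesian` are in
`Pool.Agent.Lib.MP_a1e562_co.Defs`.
-/

set_option autoImplicit false

namespace Pool.Agent.Results.MP_a1e562_co.TranslationDimTwo

open Configuration Pool.Agent.TP3

/-- Every finite projective plane in which each quadrangle generates a subplane with 13 points and
which is a translation plane given by a spread of lines of the projective 3-space over a field is
isomorphic to the plane over a field. -/
theorem result (P L : Type) [Membership P L] [ProjectivePlane P L] [Finite P]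
    (hchar : Char3 P L) (htrans : TranslationDimTwo P L) : Desarguesian P L :=
  theoremA P L hchar htrans

end Pool.Agent.Results.MP_a1e562_co.TranslationDimTwo
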